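import Pool.Agent.N289.SA.Prep

/-!
# A residually finite Kazhdan group with a Kazhdan subgroup which is not normal although the group is
generated by elements that conjugate the subgroup into a larger one
-/

set_option autoImplicit false

namespace Pool.Agent.N289.SA

open Pool.Agent.Helper278.TB (HP propT_lines)
open Pool.Agent.W661.RC (HasT)

noncomputable section

/-- the subgroup generated by the monotone elements -/
def MM : Subgroup GG := Subgroup.closure {g : GG | ∀ k ∈ KK.subgroupOf GG,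
  g⁻¹ * k * g ∈ KK.subgroupOf GG}

theorem mm_mon (g : GG) (hg : Mon (g : U)) : g ∈ MM := by
  refine Subgroup.subset_closure fun k hk => ?_
  rw [Subgroup.mem_subgroupOf] at hk ⊢
  exact hg _ hk

theorem mm_k (g : GG) (hg : (g : U) ∈ KK) : g ∈ MM :=
  mm_mon g fun _ hk => mul_mem (mul_mem (inv_mem hg) hk) hg

theorem mm_hs (t : F) (x : A) (hx : ∀ s : F, el (2 : Fin 6) 3 (by decide) (s • x) ∈ KK) :
    ∀ s : F, el (2 : Fin 6) 3 (by decide) (s • t • x) ∈ KK := by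
  intro s
  rw [smul_smul]
  exact hx _

theorem mm7 (t : F) (h : l14 7 t ∈ GG) : (⟨l14 7 t, h⟩ : GG) ∈ MM :=
  mm_mon _ (mon_low 3 4 (by decide) (by decide) (by decide) (t • (1 : A)) fun s => by
    rw [smul_smul]
    exact k24 _)

theorem mm8 (t : F) (h : l14 8 t ∈ GG) : (⟨l14 8 t, h⟩ : GG) ∈ MM :=
  mm_mon _ (mon_low 4 5 (by decide) (by decide) (by decide) (t • (1 : A)) fun s => by
    rw [smul_smul]
    exact k25 _)

theorem mm9 (t : F) (h : l14 9 t ∈ GG) : (⟨l14 9 t, h⟩ : GG) ∈ MM :=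
  mm_mon _ (mon_low 5 3 (by decide) (by decide) (by decide) (t • (1 : A)) (mm_hs t 1 k23))

theorem mm10 (t : F) (h : l14 10 t ∈ GG) : (⟨l14 10 t, h⟩ : GG) ∈ MM :=
  mm_mon _ (mon_low 5 3 (by decide) (by decide) (by decide) (t • a)
    (mm_hs t a fun s => k23x (k20a s)))

theorem mm11 (t : F) (h : l14 11 t ∈ GG) : (⟨l14 11 t, h⟩ : GG) ∈ MM :=
  mm_mon _ (mon_low 5 3 (by decide) (by decide) (by decide) (t • ai)
    (mm_hs t ai fun s => k23x (k20ai s)))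

theorem mm12 (t : F) (h : l14 12 t ∈ GG) : (⟨l14 12 t, h⟩ : GG) ∈ MM :=
  mm_mon _ (mon_low 5 3 (by decide) (by decide) (by decide) (t • b)
    (mm_hs t b fun s => k23x (k20b s)))

theorem D3_conj (t : F) : D3 * el (5 : Fin 6) 3 (by decide) (t • (1 : A)) =
    el (5 : Fin 6) 3 (by decide) (t • bi) * D3 := by
  rw [D3, dg_el]
  have e2 : ((Function.update (1 : Fin 6 → Aˣ) 3 ub 5 : Aˣ) : A) * (t • (1 : A)) *
      (((Function.update (1 : Fin 6 → Aˣ) 3 ub 3)⁻¹ : Aˣ) : A) = t • bi := by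
    rw [Function.update_self, Function.update_of_ne (by decide)]
    show (1 : A) * (t • (1 : A)) * bi = _
    rw [one_mul, smul_mul_assoc, one_mul]
  rw [e2]

theorem mm13 (t : F) (h : l14 13 t ∈ GG) : (⟨l14 13 t, h⟩ : GG) ∈ MM := by
  have hD : (⟨D3, d3_mem⟩ : GG) ∈ MM := mm_mon _ mon_D3
  have e : (⟨l14 13 t, h⟩ : GG) = ⟨D3, d3_mem⟩ *
      ⟨l14 9 t, g_line 9 t⟩ * (⟨D3, d3_mem⟩ : GG)⁻¹ := by
    apply Subtype.ext
    exact (mul_inv_eq_iff_eq_mul.2 (D3_conj t)).symm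
  rw [e]
  exact mul_mem (mul_mem hD (mm9 t _)) (inv_mem hD)

theorem mm0 (t : F) (h : l14 0 t ∈ GG) : (⟨l14 0 t, h⟩ : GG) ∈ MM := mm_k _ (k_line 0 t)
theorem mm1 (t : F) (h : l14 1 t ∈ GG) : (⟨l14 1 t, h⟩ : GG) ∈ MM := mm_k _ (k_line 1 t)
theorem mm2 (t : F) (h : l14 2 t ∈ GG) : (⟨l14 2 t, h⟩ : GG) ∈ MM := mm_k _ (k_line 2 t)
theorem mm3 (t : F) (h : l14 3 t ∈ GG) : (⟨l14 3 t, h⟩ : GG) ∈ MM := mm_k _ (k_line 3 t)
theorem mm4 (t : F) (h : l14 4 t ∈ GG) : (⟨l14 4 t, h⟩ : GG) ∈ MM := mm_k _ (k_line 4 t)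
theorem mm5 (t : F) (h : l14 5 t ∈ GG) : (⟨l14 5 t, h⟩ : GG) ∈ MM := mm_k _ (k_line 5 t)
theorem mm6 (t : F) (h : l14 6 t ∈ GG) : (⟨l14 6 t, h⟩ : GG) ∈ MM := mm_k _ (k_line 6 t)

theorem mm_line (n : Fin 14) (t : F) (h : l14 n t ∈ GG) : (⟨l14 n t, h⟩ : GG) ∈ MM := by
  fin_cases n
  · exact mm0 t h
  · exact mm1 t h
  · exact mm2 t h
  · exact mm3 t h
  · exact mm4 t h
  · exact mm5 t h
  · exact mm6 t h
  · exact mm7 t h
  · exact mm8 t h
  · exact mm9 t h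
  · exact mm10 t h
  · exact mm11 t h
  · exact mm12 t h
  · exact mm13 t h

theorem mm_top : MM = ⊤ := by
  have h1 : GG ≤ MM.map GG.subtype := by
    refine (Subgroup.closure_le _).2 ?_
    rintro x ⟨n, t, rfl⟩
    exact ⟨_, mm_line n t (g_line n t), rfl⟩
  rw [eq_top_iff]
  rintro x -
  obtain ⟨y, hy, hxy⟩ := h1 x.2
  have e : y = x := Subtype.ext hxy
  rw [← e]
  exact hy

theorem D3_conj2 : D3 * el (2 : Fin 6) 3 (by decide) (1 : A) * D3⁻¹ =
    el (2 : Fin 6) 3 (by decide) bi := by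
  rw [mul_inv_eq_iff_eq_mul, D3, dg_el]
  have e2 : ((Function.update (1 : Fin 6 → Aˣ) 3 ub 2 : Aˣ) : A) * (1 : A) *
      (((Function.update (1 : Fin 6 → Aˣ) 3 ub 3)⁻¹ : Aˣ) : A) = bi := by
    rw [Function.update_self, Function.update_of_ne (by decide)]
    show (1 : A) * (1 : A) * bi = _
    rw [one_mul, one_mul]
  rw [e2]

theorem el_bi_not_mem : el (2 : Fin 6) 3 (by decide) bi ∉ KK := by
  intro hmem
  have h3 := (kk_sub _ hmem).1 2 3 (by decide)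
  change (1 + Matrix.single 2 3 bi : Matrix (Fin 6) (Fin 6) A) 2 3 ∈ R at h3
  rw [Matrix.add_apply, Matrix.one_apply_ne (by decide), zero_add,
    Matrix.single_apply_same] at h3
  exact bi_not_mem h3

theorem not_norm : ∃ g : GG, (∀ k ∈ KK.subgroupOf GG, g⁻¹ * k * g ∈ KK.subgroupOf GG) ∧
    ∃ k ∈ KK.subgroupOf GG, g * k * g⁻¹ ∉ KK.subgroupOf GG := by
  have h23 : el (2 : Fin 6) 3 (by decide) (1 : A) ∈ KK := by
    have := k23 1
    rwa [one_smul] at this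
  refine ⟨⟨D3, d3_mem⟩, fun k hk => ?_, ⟨_, kk_le h23⟩, ?_, fun hmem => ?_⟩
  · rw [Subgroup.mem_subgroupOf] at hk ⊢
    exact mon_D3 _ hk
  · rw [Subgroup.mem_subgroupOf]
    exact h23
  · rw [Subgroup.mem_subgroupOf] at hmem
    apply el_bi_not_mem
    rw [← D3_conj2]
    exact hmem

theorem countable_GG : Countable GG := by
  obtain ⟨k, γ, hγ⟩ := Pool.Agent.N303.KQ.exists_free hasT_GG
  exact hγ.countable

theorem hasT_sub : HasT (KK.subgroupOf GG) :=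
  hasT_of_surj (Subgroup.subgroupOfEquivOfLe kk_le).symm.toMonoidHom
    (Subgroup.subgroupOfEquivOfLe kk_le).symm.surjective hasT_KK

/-- The pair. -/
theorem s_pair : ∃ (G : Type) (_ : Group G) (K : Subgroup G), Countable G ∧
    (∀ T : Finset G, ∃ (Q : Type) (_ : Group Q) (_ : Finite Q) (φ : G →* Q),
      Set.InjOn φ (T : Set G)) ∧
    HasT G ∧ HasT K ∧
    Subgroup.closure {g : G | ∀ k ∈ K, g⁻¹ * k * g ∈ K} = ⊤ ∧
    ∃ g : G, (∀ k ∈ K, g⁻¹ * k * g ∈ K) ∧ ∃ k ∈ K, g * k * g⁻¹ ∉ K := by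
  exact ⟨GG, inferInstance, KK.subgroupOf GG, countable_GG, rf_GG, hasT_GG, hasT_sub, mm_top,
    not_norm⟩

end

end Pool.Agent.N289.SA
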