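import Pool.Agent.N289.SA.Lines

/-!
# Diagonal matrices in groups generated by elementary matrices
-/

set_option autoImplicit false

namespace Pool.Agent.N289.SA

noncomputable section

variable {ι : Type} [Fintype ι] [DecidableEq ι] {A : Type} [Ring A]

/-- invertible diagonal matrices -/
def dg : (ι → Aˣ) →* (Matrix ι ι A)ˣ where
  toFun d := ⟨Matrix.diagonal fun i => (d i : A), Matrix.diagonal fun i => ((d i)⁻¹ : Aˣ),
    by rw [Matrix.diagonal_mul_diagonal]; simp, by rw [Matrix.diagonal_mul_diagonal]; simp⟩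
  map_one' := by
    apply Units.ext
    show Matrix.diagonal _ = _
    simp
  map_mul' d e := by
    apply Units.ext
    show Matrix.diagonal _ = Matrix.diagonal _ * Matrix.diagonal _
    rw [Matrix.diagonal_mul_diagonal]
    simp

theorem dg_val (d : ι → Aˣ) : (dg d : Matrix ι ι A) = Matrix.diagonal fun i => (d i : A) := rfl

theorem dg_el (d : ι → Aˣ) {i j : ι} (h : i ≠ j) (r : A) :
    dg d * el i j h r = el i j h (d i * r * ((d j)⁻¹ : Aˣ)) * dg d := by
  apply Units.ext
  show (Matrix.diagonal fun i => (d i : A)) * (1 + Matrix.single i j r) =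
    (1 + Matrix.single i j (d i * r * ((d j)⁻¹ : Aˣ))) * (Matrix.diagonal fun i => (d i : A))
  rw [mul_add, add_mul, mul_one, one_mul]
  congr 1
  ext p q
  rw [Matrix.diagonal_mul, Matrix.mul_diagonal]
  simp only [Matrix.single_apply]
  split_ifs with h1
  · obtain ⟨rfl, rfl⟩ := h1
    rw [mul_assoc (_ * _), Units.inv_mul, mul_one]
  · rw [mul_zero, zero_mul]

theorem w_eq {i j : ι} (h : i ≠ j) (x y : A) (hxy : x * y = 1) (hyx : y * x = 1) :
    ((el i j h x * el j i h.symm (-y) * el i j h x : (Matrix ι ι A)ˣ) : Matrix ι ι A) =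
      1 - Matrix.single i i 1 - Matrix.single j j 1 + Matrix.single i j x -
        Matrix.single j i y := by
  show (1 + Matrix.single i j x) * (1 + Matrix.single j i (-y)) * (1 + Matrix.single i j x) = _
  have e1 : (Matrix.single i j x * Matrix.single j i (-y) : Matrix ι ι A) =
      - Matrix.single i i 1 := by
    rw [Matrix.single_mul_single_same, mul_neg, hxy, Matrix.single_neg]
  have e2 : (Matrix.single j i (-y) * Matrix.single i j x : Matrix ι ι A) =
      - Matrix.single j j 1 := by
    rw [Matrix.single_mul_single_same, neg_mul, hyx, Matrix.single_neg]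
  have e3 : (Matrix.single i j x * Matrix.single i j x : Matrix ι ι A) = 0 := single_sq h x x
  have e4 : (Matrix.single i i (1 : A) * Matrix.single i j x : Matrix ι ι A) =
      Matrix.single i j x := by
    rw [Matrix.single_mul_single_same, one_mul]
  have e5 : (Matrix.single j i (-y) : Matrix ι ι A) = - Matrix.single j i y :=
    (Matrix.single_neg _ _ _).symm
  have e6 : (1 + Matrix.single i j x) * (1 + Matrix.single j i (-y)) =
      (1 + Matrix.single i j x + Matrix.single j i (-y) - Matrix.single i i 1 : Matrix ι ι A) := by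
    simp only [mul_add, add_mul, mul_one, one_mul, e1]
    abel
  rw [e6, mul_add, mul_one, sub_mul, add_mul, add_mul, one_mul, e3, e2, e4, e5]
  abel

theorem h_eq {i j : ι} (h : i ≠ j) (x y : A) (hxy : x * y = 1) (hyx : y * x = 1) :
    (((el i j h x * el j i h.symm (-y) * el i j h x) *
      (el i j h (-1) * el j i h.symm (- (-1)) * el i j h (-1)) : (Matrix ι ι A)ˣ) :
        Matrix ι ι A) =
      1 - Matrix.single i i 1 - Matrix.single j j 1 + Matrix.single i i x +
        Matrix.single j j y := by
  rw [Units.val_mul, w_eq h x y hxy hyx, w_eq h (-1) (-1) (by simp) (by simp)]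
  have n1 : (Matrix.single i j (-1 : A) : Matrix ι ι A) = - Matrix.single i j 1 :=
    (Matrix.single_neg _ _ _).symm
  have n2 : (Matrix.single j i (-1 : A) : Matrix ι ι A) = - Matrix.single j i 1 :=
    (Matrix.single_neg _ _ _).symm
  rw [n1, n2]
  simp only [sub_mul, add_mul, mul_sub, mul_add, mul_neg, mul_one, one_mul,
    Matrix.single_mul_single_same, Matrix.single_mul_single_of_ne _ _ _ _ h,
    Matrix.single_mul_single_of_ne _ _ _ _ h.symm]
  abel

/-- the diagonal matrix with `x` and `x⁻¹` at two places -/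
theorem dg_pair {i j : ι} (h : i ≠ j) (x : Aˣ) :
    dg (Function.update (Function.update 1 i x) j x⁻¹) =
      (el i j h (x : A) * el j i h.symm (-((x⁻¹ : Aˣ) : A)) * el i j h (x : A)) *
        (el i j h (-1) * el j i h.symm (- (-1)) * el i j h (-1)) := by
  apply Units.ext
  rw [h_eq h (x : A) ((x⁻¹ : Aˣ) : A) (Units.mul_inv _) (Units.inv_mul _), dg_val]
  ext p q
  simp only [Matrix.add_apply, Matrix.sub_apply, Matrix.single_apply, Matrix.diagonal_apply,
    Matrix.one_apply]
  by_cases hpq : p = q
  · subst hpq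
    by_cases hj : p = j
    · subst hj
      simp [h]
    · by_cases hi : p = i
      · subst hi
        simp [h, h.symm, Function.update_of_ne, hj]
      · simp [Function.update_of_ne, hi, hj, Ne.symm hi, Ne.symm hj, eq_comm]
  · have h1 : ∀ k : ι, ¬ (k = p ∧ k = q) := fun k hk => hpq (hk.1.symm.trans hk.2)
    simp [hpq, h1]

theorem dg_pair_mem (S : Subgroup (Matrix ι ι A)ˣ) {i j : ι} (h : i ≠ j) (x : Aˣ)
    (h1 : ∀ r ∈ ({(x : A), -1} : Set A), el i j h r ∈ S)
    (h2 : ∀ r ∈ ({-((x⁻¹ : Aˣ) : A), - (-1)} : Set A), el j i h.symm r ∈ S) :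
    dg (Function.update (Function.update 1 i x) j x⁻¹) ∈ S := by
  rw [dg_pair h]
  refine mul_mem (mul_mem (mul_mem (h1 _ (by simp)) (h2 _ (by simp))) (h1 _ (by simp)))
    (mul_mem (mul_mem (h1 _ (by simp)) (h2 _ (by simp))) (h1 _ (by simp)))

end

end Pool.Agent.N289.SA
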