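import Pool.Agent.Helper278.TB.PropT
import Pool.Agent.W661.RC.Stm2

/-!
# Elementary matrices, lines, and property (T) of groups generated by lines
-/

set_option autoImplicit false

namespace Pool.Agent.N289.SA

open Pool.Agent.Helper278.TB (HP propT_lines)
open Pool.Agent.W661.RC (HasT)

section el

variable {ι : Type} [Fintype ι] [DecidableEq ι] {A : Type} [Ring A]

theorem single_sq {i j : ι} (h : i ≠ j) (a b : A) :
    Matrix.single i j a * Matrix.single i j b = 0 := by
  rw [Matrix.single_mul_single_of_ne _ _ _ _ h.symm]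

/-- the elementary matrix `1 + a E_ij` -/
def el (i j : ι) (h : i ≠ j) (a : A) : (Matrix ι ι A)ˣ where
  val := 1 + Matrix.single i j a
  inv := 1 - Matrix.single i j a
  val_inv := by
    rw [mul_sub, add_mul, add_mul, single_sq h a a]
    simp
  inv_val := by
    rw [mul_add, sub_mul, sub_mul, single_sq h a a]
    simp

theorem el_add {i j : ι} (h : i ≠ j) (a b : A) : el i j h (a + b) = el i j h a * el i j h b := by
  apply Units.ext
  change (1 + Matrix.single i j (a + b) : Matrix ι ι A) =
    (1 + Matrix.single i j a) * (1 + Matrix.single i j b)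
  rw [Matrix.single_add]
  simp only [mul_add, add_mul, one_mul, mul_one, single_sq h, add_zero]
  abel

theorem el_rel {i j k : ι} (hij : i ≠ j) (hjk : j ≠ k) (hik : i ≠ k) (a b : A) :
    el i j hij a * el j k hjk b = el j k hjk b * (el i j hij a * el i k hik (a * b)) := by
  apply Units.ext
  change ((1 + Matrix.single i j a) * (1 + Matrix.single j k b) : Matrix ι ι A) =
    (1 + Matrix.single j k b) * ((1 + Matrix.single i j a) * (1 + Matrix.single i k (a * b)))
  have h1 : (Matrix.single i j a * Matrix.single j k b : Matrix ι ι A) =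
      Matrix.single i k (a * b) := Matrix.single_mul_single_same ..
  have h2 : (Matrix.single j k b * Matrix.single i j a : Matrix ι ι A) = 0 :=
    Matrix.single_mul_single_of_ne _ _ _ _ hik.symm _
  have h3 : (Matrix.single i j a * Matrix.single i k (a * b) : Matrix ι ι A) = 0 :=
    Matrix.single_mul_single_of_ne _ _ _ _ hij.symm _
  have h4 : (Matrix.single j k b * Matrix.single i k (a * b) : Matrix ι ι A) = 0 :=
    Matrix.single_mul_single_of_ne _ _ _ _ hik.symm _
  simp only [mul_add, add_mul, one_mul, mul_one, h1, h2, h3, h4, add_zero]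
  abel

/-- elementary matrices commute if the positions cannot be composed -/
theorem el_comm {i j k l : ι} (hij : i ≠ j) (hkl : k ≠ l) (h1 : j ≠ k) (h2 : l ≠ i) (a b : A) :
    el i j hij a * el k l hkl b = el k l hkl b * el i j hij a := by
  apply Units.ext
  change ((1 + Matrix.single i j a) * (1 + Matrix.single k l b) : Matrix ι ι A) =
    (1 + Matrix.single k l b) * (1 + Matrix.single i j a)
  have e1 : (Matrix.single i j a * Matrix.single k l b : Matrix ι ι A) = 0 :=
    Matrix.single_mul_single_of_ne _ _ _ _ h1 _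
  have e2 : (Matrix.single k l b * Matrix.single i j a : Matrix ι ι A) = 0 :=
    Matrix.single_mul_single_of_ne _ _ _ _ h2 _
  simp only [mul_add, add_mul, one_mul, mul_one, e1, e2, add_zero]
  abel

theorem el_zero {i j : ι} (h : i ≠ j) : el i j h (0 : A) = 1 := by
  have h1 := el_add h (0 : A) 0
  rw [add_zero] at h1
  exact left_eq_mul.mp h1

theorem el_inv {i j : ι} (h : i ≠ j) (a : A) : (el i j h a)⁻¹ = el i j h (-a) := by
  rw [inv_eq_iff_mul_eq_one, ← el_add, add_neg_cancel, el_zero]

theorem mem_mul (S : Subgroup (Matrix ι ι A)ˣ) {i j k : ι} (hij : i ≠ j) (hjk : j ≠ k)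
    (hik : i ≠ k) {a b : A} (ha : el i j hij a ∈ S) (hb : el j k hjk b ∈ S) :
    el i k hik (a * b) ∈ S := by
  have h := el_rel hij hjk hik a b
  have e : el i k hik (a * b) = (el i j hij a)⁻¹ * (el j k hjk b)⁻¹ *
      (el i j hij a * el j k hjk b) := by
    rw [h]
    group
  rw [e]
  exact mul_mem (mul_mem (inv_mem ha) (inv_mem hb)) (mul_mem ha hb)

variable {K : Type} [Field K] [Algebra K A]

/-- lines in compatible positions form Heisenberg pairs -/
theorem hp_el {i j k l : ι} (hij : i ≠ j) (hkl : k ≠ l) (h : ¬ (j = k ∧ l = i)) (a b : A) :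
    HP (fun c : K => el i j hij (c • a)) (fun c : K => el k l hkl (c • b)) ∨
    HP (fun c : K => el k l hkl (c • b)) (fun c : K => el i j hij (c • a)) := by
  by_cases h1 : j = k
  · left
    subst h1
    have hil : i ≠ l := fun h2 => h ⟨rfl, h2.symm⟩
    refine ⟨fun c => el i l hil (c • (a * b)), ?_, ?_, ?_, ?_⟩
    · intro c d
      beta_reduce
      rw [add_smul, el_add]
    · intro c d
      have h := el_rel hij hkl hil (c • a) (d • b)
      rw [smul_mul_smul_comm] at h
      exact h
    · intro c d
      exact el_comm _ _ hil.symm hij.symm _ _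
    · intro c d
      exact el_comm _ _ hkl.symm hil.symm _ _
  · by_cases h2 : l = i
    · right
      subst h2
      have hkj : k ≠ j := fun h3 => h1 h3.symm
      refine ⟨fun c => el k j hkj (c • (b * a)), ?_, ?_, ?_, ?_⟩
      · intro c d
        beta_reduce
        rw [add_smul, el_add]
      · intro c d
        have h := el_rel hkl hij hkj (c • b) (d • a)
        rw [smul_mul_smul_comm] at h
        exact h
      · intro c d
        exact el_comm _ _ hkj.symm hkl.symm _ _
      · intro c d
        exact el_comm _ _ hij.symm hkj.symm _ _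
    · left
      refine ⟨fun _ => 1, ?_, ?_, ?_, ?_⟩
      · intro c d
        rw [mul_one]
      · intro c d
        rw [mul_one]
        exact el_comm _ _ h1 h2 _ _
      · intro c d
        rw [mul_one, one_mul]
      · intro c d
        rw [mul_one, one_mul]

end el

/-- Heisenberg pairs in a subgroup -/
theorem hp_sub {K : Type} [Field K] {X : Type} [Group X] (S : Subgroup X) (u v : K → X)
    (hu : ∀ t, u t ∈ S) (hv : ∀ t, v t ∈ S) (h : HP u v) :
    HP (fun t => (⟨u t, hu t⟩ : S)) (fun t => (⟨v t, hv t⟩ : S)) := by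
  obtain ⟨z, hz, hrel, h1, h2⟩ := h
  have hzG : ∀ a, z a ∈ S := by
    intro a
    have h := hrel a 1
    rw [mul_one] at h
    have e : z a = (u a)⁻¹ * (v 1)⁻¹ * (u a * v 1) := by
      rw [h]; group
    rw [e]
    exact mul_mem (mul_mem (inv_mem (hu a)) (inv_mem (hv 1))) (mul_mem (hu a) (hv 1))
  refine ⟨fun a => ⟨z a, hzG a⟩, ?_, ?_, ?_, ?_⟩
  · intro a b; exact Subtype.ext (hz a b)
  · intro a b; exact Subtype.ext (hrel a b)
  · intro a b; exact Subtype.ext (h1 a b)
  · intro a b; exact Subtype.ext (h2 a b)

/-- **Property (T)** of the subgroup generated by at most fifteen lines any two of which form a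
Heisenberg pair. -/
theorem hasT_lines {K : Type} [Field K] [Fintype K] (hK : 256 ≤ Fintype.card K) {X : Type}
    [Group X] {n : ℕ} (hn0 : 0 < n) (hn : n ≤ 15) (u : Fin n → K → X)
    (hadd : ∀ i a b, u i (a + b) = u i a * u i b)
    (pair : ∀ i j, i ≠ j → HP (u i) (u j) ∨ HP (u j) (u i)) :
    HasT (Subgroup.closure {g | ∃ i t, g = u i t}) := by
  set S : Subgroup X := Subgroup.closure {g | ∃ i t, g = u i t} with hS
  have hmem : ∀ i t, u i t ∈ S := fun i t => Subgroup.subset_closure ⟨i, t, rfl⟩
  obtain ⟨T, ε, hε, hT⟩ := propT_lines (Γ := S) hK hn0 hn (fun i t => (⟨u i t, hmem i t⟩ : S))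
    (fun i a b => Subtype.ext (hadd i a b))
    (fun i j hij => (pair i j hij).imp (hp_sub S _ _ _ _) (hp_sub S _ _ _ _)) (by
      rw [eq_top_iff]
      rintro ⟨x, hx⟩ -
      refine Subgroup.closure_induction (p := fun x hx => (⟨x, hx⟩ : S) ∈
        Subgroup.closure {g : S | ∃ i t, g = ⟨u i t, hmem i t⟩}) ?_ ?_ ?_ ?_ hx
      · rintro x ⟨i, t, rfl⟩
        exact Subgroup.subset_closure ⟨i, t, rfl⟩
      · exact one_mem _
      · intro x y hx hy h1 h2
        exact mul_mem h1 h2
      · intro x hx h1
        exact inv_mem h1)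
  intro H _ _ _ π hπ
  exact hT H π (hπ T ε hε)

end Pool.Agent.N289.SA
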