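import Pool.Agent.N289.SA.Ring
import Pool.Agent.N289.SA.Diag
import Pool.Agent.N303.KQ.FG

/-!
# Preparations for a residually finite Kazhdan group with a Kazhdan subgroup which is not normal although the group is
generated by elements that conjugate the subgroup into a larger one
-/

set_option autoImplicit false

namespace Pool.Agent.N289.SA

open Pool.Agent.Helper278.TB (HP propT_lines)
open Pool.Agent.W661.RC (HasT)

noncomputable section

/-- property (T) passes to quotients -/
theorem hasT_of_surj {X Y : Type} [Group X] [Group Y] (f : X →* Y) (hf : Function.Surjective f)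
    (h : HasT X) : HasT Y := by
  classical
  intro H _ _ _ π hπ
  obtain ⟨v, hv, h2⟩ := h H (π.comp f) (fun T ε hε => by
    obtain ⟨v, h1, h2⟩ := hπ (T.image f) ε hε
    exact ⟨v, h1, fun g hg => h2 (f g) (Finset.mem_image_of_mem _ hg)⟩)
  refine ⟨v, hv, fun g => ?_⟩
  obtain ⟨x, rfl⟩ := hf g
  exact h2 x

/-- the ambient group -/
abbrev U := (Matrix (Fin 6) (Fin 6) A)ˣ

def pi14 : Fin 14 → Fin 6 := ![0, 1, 2, 2, 2, 2, 2, 3, 4, 5, 5, 5, 5, 5]
def pj14 : Fin 14 → Fin 6 := ![1, 2, 0, 0, 0, 0, 3, 4, 5, 3, 3, 3, 3, 3]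
def cf14 : Fin 14 → A := ![1, 1, 1, a, ai, b, 1, 1, 1, 1, a, ai, b, bi]
def pi9 : Fin 9 → Fin 6 := ![0, 1, 2, 2, 2, 2, 2, 2, 2]
def pj9 : Fin 9 → Fin 6 := ![1, 2, 0, 0, 0, 0, 3, 4, 5]
def cf9 : Fin 9 → A := ![1, 1, 1, a, ai, b, 1, 1, 1]

theorem ne14 : ∀ n, pi14 n ≠ pj14 n := by decide
theorem ok14 : ∀ m n, ¬ (pj14 m = pi14 n ∧ pj14 n = pi14 m) := by decide
theorem ne9 : ∀ n, pi9 n ≠ pj9 n := by decide
theorem ok9 : ∀ m n, ¬ (pj9 m = pi9 n ∧ pj9 n = pi9 m) := by decide

/-- the lines generating `G` -/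
def l14 (n : Fin 14) (t : F) : U := el (pi14 n) (pj14 n) (ne14 n) (t • cf14 n)

/-- the lines generating `K` -/
def l9 (n : Fin 9) (t : F) : U := el (pi9 n) (pj9 n) (ne9 n) (t • cf9 n)

/-- the group -/
def GG : Subgroup U := Subgroup.closure {g | ∃ n t, g = l14 n t}

/-- the subgroup -/
def KK : Subgroup U := Subgroup.closure {g | ∃ n t, g = l9 n t}

theorem cardF : 256 ≤ Fintype.card F := by
  rw [ZMod.card]
  norm_num

theorem hasT_GG : HasT GG :=
  hasT_lines (K := F) cardF (by norm_num) (by norm_num) l14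
    (fun i a b => by unfold l14; rw [add_smul, el_add])
    (fun m n _ => hp_el (ne14 m) (ne14 n) (ok14 m n) _ _)

theorem hasT_KK : HasT KK :=
  hasT_lines (K := F) cardF (by norm_num) (by norm_num) l9
    (fun i a b => by unfold l9; rw [add_smul, el_add])
    (fun m n _ => hp_el (ne9 m) (ne9 n) (ok9 m n) _ _)

/-- elementary matrices of `K` -/
theorem k_line (n : Fin 9) (t : F) : l9 n t ∈ KK := Subgroup.subset_closure ⟨n, t, rfl⟩

theorem g_line (n : Fin 14) (t : F) : l14 n t ∈ GG := Subgroup.subset_closure ⟨n, t, rfl⟩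

theorem k01 (t : F) : el (0 : Fin 6) 1 (by decide) (t • (1 : A)) ∈ KK := k_line 0 t
theorem k12 (t : F) : el (1 : Fin 6) 2 (by decide) (t • (1 : A)) ∈ KK := k_line 1 t
theorem k20 (t : F) : el (2 : Fin 6) 0 (by decide) (t • (1 : A)) ∈ KK := k_line 2 t
theorem k20a (t : F) : el (2 : Fin 6) 0 (by decide) (t • a) ∈ KK := k_line 3 t
theorem k20ai (t : F) : el (2 : Fin 6) 0 (by decide) (t • ai) ∈ KK := k_line 4 t
theorem k20b (t : F) : el (2 : Fin 6) 0 (by decide) (t • b) ∈ KK := k_line 5 t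
theorem k23 (t : F) : el (2 : Fin 6) 3 (by decide) (t • (1 : A)) ∈ KK := k_line 6 t
theorem k24 (t : F) : el (2 : Fin 6) 4 (by decide) (t • (1 : A)) ∈ KK := k_line 7 t
theorem k25 (t : F) : el (2 : Fin 6) 5 (by decide) (t • (1 : A)) ∈ KK := k_line 8 t

theorem k03 : el (0 : Fin 6) 3 (by decide) (1 : A) ∈ KK := by
  have h1 := k01 1
  have h2 := k12 1
  have h3 := k23 1
  rw [one_smul] at h1 h2 h3
  have h4 := mem_mul KK (i := 0) (j := 1) (k := 2) (by decide) (by decide) (by decide) h1 h2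
  rw [mul_one] at h4
  have h5 := mem_mul KK (i := 0) (j := 2) (k := 3) (by decide) (by decide) (by decide) h4 h3
  rwa [mul_one] at h5

theorem k23x {x : A} (h : el (2 : Fin 6) 0 (by decide) x ∈ KK) :
    el (2 : Fin 6) 3 (by decide) x ∈ KK := by
  have h1 := mem_mul KK (i := 2) (j := 0) (k := 3) (by decide) (by decide) (by decide) h k03
  rwa [mul_one] at h1

theorem g34 (t : F) : el (3 : Fin 6) 4 (by decide) (t • (1 : A)) ∈ GG := g_line 7 t
theorem g45 (t : F) : el (4 : Fin 6) 5 (by decide) (t • (1 : A)) ∈ GG := g_line 8 t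
theorem g53 (t : F) : el (5 : Fin 6) 3 (by decide) (t • (1 : A)) ∈ GG := g_line 9 t
theorem g53a (t : F) : el (5 : Fin 6) 3 (by decide) (t • a) ∈ GG := g_line 10 t
theorem g53ai (t : F) : el (5 : Fin 6) 3 (by decide) (t • ai) ∈ GG := g_line 11 t
theorem g53b (t : F) : el (5 : Fin 6) 3 (by decide) (t • b) ∈ GG := g_line 12 t
theorem g53bi (t : F) : el (5 : Fin 6) 3 (by decide) (t • bi) ∈ GG := g_line 13 t

theorem kk_le : KK ≤ GG := by
  refine (Subgroup.closure_le _).2 ?_
  rintro _ ⟨n, t, rfl⟩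
  have h23 : ∀ t : F, el (2 : Fin 6) 3 (by decide) (t • (1 : A)) ∈ GG := fun t => g_line 6 t
  have h24 : ∀ t : F, el (2 : Fin 6) 4 (by decide) (t • (1 : A)) ∈ GG := by
    intro t
    have h1 := h23 t
    have h2 := g34 1
    rw [one_smul] at h2
    have := mem_mul GG (i := 2) (j := 3) (k := 4) (by decide) (by decide) (by decide) h1 h2
    rwa [mul_one] at this
  have h25 : ∀ t : F, el (2 : Fin 6) 5 (by decide) (t • (1 : A)) ∈ GG := by
    intro t
    have h1 := h24 t
    have h2 := g45 1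
    rw [one_smul] at h2
    have := mem_mul GG (i := 2) (j := 4) (k := 5) (by decide) (by decide) (by decide) h1 h2
    rwa [mul_one] at this
  show l9 n t ∈ GG
  fin_cases n
  · exact g_line 0 t
  · exact g_line 1 t
  · exact g_line 2 t
  · exact g_line 3 t
  · exact g_line 4 t
  · exact g_line 5 t
  · exact g_line 6 t
  · exact h24 t
  · exact h25 t

/-- `a` and `b` as units -/
def ua : Aˣ := ⟨a, ai, a_ai, ai_a⟩
def ub : Aˣ := ⟨b, bi, b_bi, bi_b⟩

theorem ub_comm : ua * ub * ua⁻¹ * ub⁻¹ = ub := by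
  have h : ua * ub = ub * ub * ua := Units.ext a_b
  rw [h]
  group

/-- elementary matrices in the lower block of `G` -/
theorem g_low {x : A} (hx : el (5 : Fin 6) 3 (by decide) x ∈ GG) :
    el (3 : Fin 6) 4 (by decide) x ∈ GG ∧ el (4 : Fin 6) 3 (by decide) x ∈ GG ∧
    el (3 : Fin 6) 5 (by decide) x ∈ GG := by
  have a1 : el (3 : Fin 6) 4 (by decide) (1 : A) ∈ GG := by
    have := g34 1
    rwa [one_smul] at this
  have a2 : el (4 : Fin 6) 5 (by decide) (1 : A) ∈ GG := by
    have := g45 1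
    rwa [one_smul] at this
  have a3 : el (3 : Fin 6) 5 (by decide) (1 : A) ∈ GG := by
    have := mem_mul GG (i := 3) (j := 4) (k := 5) (by decide) (by decide) (by decide) a1 a2
    rwa [mul_one] at this
  have b1 : el (4 : Fin 6) 3 (by decide) x ∈ GG := by
    have := mem_mul GG (i := 4) (j := 5) (k := 3) (by decide) (by decide) (by decide) a2 hx
    rwa [one_mul] at this
  have b2 : el (5 : Fin 6) 4 (by decide) x ∈ GG := by
    have := mem_mul GG (i := 5) (j := 3) (k := 4) (by decide) (by decide) (by decide) hx a1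
    rwa [mul_one] at this
  have b3 : el (3 : Fin 6) 4 (by decide) x ∈ GG := by
    have := mem_mul GG (i := 3) (j := 5) (k := 4) (by decide) (by decide) (by decide) a3 b2
    rwa [one_mul] at this
  have b4 : el (3 : Fin 6) 5 (by decide) x ∈ GG := by
    have := mem_mul GG (i := 3) (j := 4) (k := 5) (by decide) (by decide) (by decide) b3 a2
    rwa [mul_one] at this
  exact ⟨b3, b1, b4⟩

theorem g_neg {i j : Fin 6} {h : i ≠ j} {x : A} (hx : el i j h x ∈ GG) : el i j h (-x) ∈ GG := by
  rw [← el_inv]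
  exact inv_mem hx

/-- the monotone diagonal element -/
def D3 : U := dg (Function.update 1 3 ub)

theorem d3_mem : D3 ∈ GG := by
  have e1 : el (5 : Fin 6) 3 (by decide) (1 : A) ∈ GG := by
    have := g53 1
    rwa [one_smul] at this
  have ea : el (5 : Fin 6) 3 (by decide) a ∈ GG := by
    have := g53a 1
    rwa [one_smul] at this
  have eai : el (5 : Fin 6) 3 (by decide) ai ∈ GG := by
    have := g53ai 1
    rwa [one_smul] at this
  have eb : el (5 : Fin 6) 3 (by decide) b ∈ GG := by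
    have := g53b 1
    rwa [one_smul] at this
  have ebi : el (5 : Fin 6) 3 (by decide) bi ∈ GG := by
    have := g53bi 1
    rwa [one_smul] at this
  have h1 : dg (Function.update (Function.update 1 3 ua) 4 ua⁻¹) ∈ GG := by
    refine dg_pair_mem GG (i := (3 : Fin 6)) (j := 4) (by decide) ua ?_ ?_
    · rintro r (rfl | rfl)
      · exact (g_low ea).1
      · exact g_neg (g_low e1).1
    · rintro r (rfl | rfl)
      · exact g_neg (g_low eai).2.1
      · rw [neg_neg]
        exact (g_low e1).2.1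
  have h2 : dg (Function.update (Function.update 1 3 ub) 5 ub⁻¹) ∈ GG := by
    refine dg_pair_mem GG (i := (3 : Fin 6)) (j := 5) (by decide) ub ?_ ?_
    · rintro r (rfl | rfl)
      · exact (g_low eb).2.2
      · exact g_neg (g_low e1).2.2
    · rintro r (rfl | rfl)
      · exact g_neg ebi
      · rw [neg_neg]
        exact e1
  have h3 : D3 = dg (Function.update (Function.update 1 3 ua) 4 ua⁻¹) *
      dg (Function.update (Function.update 1 3 ub) 5 ub⁻¹) *
      (dg (Function.update (Function.update 1 3 ua) 4 ua⁻¹))⁻¹ *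
      (dg (Function.update (Function.update 1 3 ub) 5 ub⁻¹))⁻¹ := by
    rw [D3, ← map_inv, ← map_inv, ← map_mul, ← map_mul, ← map_mul]
    congr 1
    funext i
    fin_cases i
    · simp [Function.update]
    · simp [Function.update]
    · simp [Function.update]
    · simp [Function.update]
      exact ub_comm.symm
    · simp [Function.update]
    · simp [Function.update]
  rw [h3]
  exact mul_mem (mul_mem (mul_mem h1 h2) (inv_mem h1)) (inv_mem h2)

/-- upper bound for `K` -/
def SubM : Submonoid (Matrix (Fin 6) (Fin 6) A) where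
  carrier := {m | (∀ i j : Fin 6, i.1 < 3 → m i j ∈ R) ∧
    ∀ i j : Fin 6, 3 ≤ i.1 → m i j = (1 : Matrix (Fin 6) (Fin 6) A) i j}
  one_mem' := by
    refine ⟨fun i j _ => ?_, fun i j _ => rfl⟩
    rw [Matrix.one_apply]
    split_ifs
    · exact one_mem _
    · exact zero_mem _
  mul_mem' := by
    rintro x y ⟨hx1, hx2⟩ ⟨hy1, hy2⟩
    refine ⟨fun i j hi => ?_, fun i j hi => ?_⟩
    · rw [Matrix.mul_apply]
      refine sum_mem fun k _ => ?_
      rcases lt_or_ge k.1 3 with hk | hk
      · exact mul_mem (hx1 i k hi) (hy1 k j hk)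
      · rw [hy2 k j hk, Matrix.one_apply]
        split_ifs
        · rw [mul_one]
          exact hx1 i k hi
        · rw [mul_zero]
          exact zero_mem _
    · rw [Matrix.mul_apply, Finset.sum_eq_single i]
      · rw [hx2 i i hi, Matrix.one_apply_eq, one_mul, hy2 i j hi]
      · intro k _ hk
        rw [hx2 i k hi, Matrix.one_apply_ne hk.symm, zero_mul]
      · intro h
        exact absurd (Finset.mem_univ _) h

theorem el_subM (i j : Fin 6) (h : i ≠ j) (hi : i.1 < 3) (x : A) (hx : x ∈ R) :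
    ((el i j h x : U) : Matrix (Fin 6) (Fin 6) A) ∈ SubM := by
  refine ⟨fun p q _ => ?_, fun p q hp => ?_⟩
  · show (1 + Matrix.single i j x : Matrix (Fin 6) (Fin 6) A) p q ∈ R
    rw [Matrix.add_apply, Matrix.one_apply, Matrix.single_apply]
    refine add_mem ?_ ?_
    · split_ifs
      · exact one_mem _
      · exact zero_mem _
    · split_ifs
      · exact hx
      · exact zero_mem _
  · show (1 + Matrix.single i j x : Matrix (Fin 6) (Fin 6) A) p q = _
    rw [Matrix.add_apply, Matrix.single_apply, if_neg, add_zero]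
    rintro ⟨rfl, -⟩
    omega

theorem pi9_lt : ∀ n, (pi9 n).1 < 3 := by decide

theorem cf9_mem (n : Fin 9) (t : F) : t • cf9 n ∈ R := by
  refine R.smul_mem ?_ t
  fin_cases n
  · exact one_mem _
  · exact one_mem _
  · exact one_mem _
  · exact a_mem
  · exact ai_mem
  · exact b_mem
  · exact one_mem _
  · exact one_mem _
  · exact one_mem _

theorem kk_sub : ∀ k ∈ KK, (k : Matrix (Fin 6) (Fin 6) A) ∈ SubM := by
  have h : KK ≤ SubM.units := by
    refine (Subgroup.closure_le _).2 ?_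
    rintro _ ⟨n, t, rfl⟩
    rw [SetLike.mem_coe, Submonoid.mem_units_iff]
    refine ⟨el_subM _ _ _ (pi9_lt n) _ (cf9_mem n t), ?_⟩
    unfold l9
    rw [el_inv]
    exact el_subM _ _ _ (pi9_lt n) _ (neg_mem (cf9_mem n t))
  intro k hk
  exact ((Submonoid.mem_units_iff _ _).1 (h hk)).1

/-- the monotone elements of the ambient group -/
def Mon (g : U) : Prop := ∀ k ∈ KK, g⁻¹ * k * g ∈ KK

theorem mon_of_gens (g : U) (h : ∀ n t, g⁻¹ * l9 n t * g ∈ KK) : Mon g := by
  intro k hk
  have h1 : KK ≤ KK.comap (MulAut.conj g⁻¹).toMonoidHom := by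
    refine (Subgroup.closure_le _).2 ?_
    rintro _ ⟨n, t, rfl⟩
    rw [SetLike.mem_coe, Subgroup.mem_comap]
    show g⁻¹ * l9 n t * (g⁻¹)⁻¹ ∈ KK
    rw [inv_inv]
    exact h n t
  have h2 := h1 hk
  rw [Subgroup.mem_comap] at h2
  change g⁻¹ * k * (g⁻¹)⁻¹ ∈ KK at h2
  rwa [inv_inv] at h2

theorem conj_of_comm {g k : U} (h : k * g = g * k) (hk : k ∈ KK) : g⁻¹ * k * g ∈ KK := by
  rw [mul_assoc, h, inv_mul_cancel_left]
  exact hk

theorem conj_of_rel {g k z : U} (h : k * g = g * (k * z)) (hk : k ∈ KK) (hz : z ∈ KK) :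
    g⁻¹ * k * g ∈ KK := by
  rw [mul_assoc, h, inv_mul_cancel_left]
  exact mul_mem hk hz

/-- a lower elementary matrix is monotone if the corresponding upper ones lie in `K` -/
theorem mon_low (p q : Fin 6) (hpq : p ≠ q) (hp : 3 ≤ p.1) (hq : 3 ≤ q.1) (x : A)
    (hx : ∀ t : F, el 2 q (by rintro rfl; exact absurd hq (by decide)) (t • x) ∈ KK) :
    Mon (el p q hpq x) := by
  refine mon_of_gens _ fun n t => ?_
  by_cases hn : pj9 n = p
  · have h2 : pi9 n = 2 ∧ cf9 n = 1 := by
      fin_cases n <;> simp [pi9, pj9, cf9] at hn ⊢ <;> subst hn <;> exact absurd hp (by decide)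
    have hne : (2 : Fin 6) ≠ q := by rintro rfl; exact absurd hq (by decide)
    have hnp : (2 : Fin 6) ≠ p := by rintro rfl; exact absurd hp (by decide)
    have e : l9 n t = el 2 p hnp (t • (1 : A)) := by
      unfold l9
      obtain ⟨h21, h22⟩ := h2
      rw [h22]
      congr 1
    refine conj_of_rel (z := el 2 q hne (t • x)) ?_ (k_line n t) (hx t)
    rw [e, el_rel hnp hpq hne (t • (1 : A)) x]
    rw [smul_mul_assoc, one_mul]
  · refine conj_of_comm ?_ (k_line n t)
    unfold l9
    refine el_comm _ _ hn ?_ _ _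
    intro h3
    have := pi9_lt n
    rw [← h3] at this
    omega

theorem mon_D3 : Mon D3 := by
  refine mon_of_gens _ fun n t => ?_
  have hd : ∀ i : Fin 6, i ≠ 3 → (Function.update (1 : Fin 6 → Aˣ) 3 ub) i = 1 := by
    intro i hi
    rw [Function.update_of_ne hi]
    rfl
  -- `D3 (D3⁻¹ k D3) = k D3`
  by_cases hn : pj9 n = 3
  · have h2 : n = 6 := by
      fin_cases n <;> simp_all [pj9]
    subst h2
    have h3 : D3 * el (2 : Fin 6) 3 (by decide) (t • b) =
        el (2 : Fin 6) 3 (by decide) (t • (1 : A)) * D3 := by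
      rw [D3, dg_el]
      congr 2
      rw [hd 2 (by decide), Function.update_self, Units.val_one, one_mul]
      show (t • b) * bi = _
      rw [smul_mul_assoc, b_bi]
    have h4 : D3⁻¹ * l9 6 t * D3 = el (2 : Fin 6) 3 (by decide) (t • b) := by
      rw [mul_assoc, inv_mul_eq_iff_eq_mul]
      exact h3.symm
    rw [h4]
    exact k23x (k20b t)
  · refine conj_of_comm ?_ (k_line n t)
    have hi : pi9 n ≠ 3 := by
      intro h
      have := pi9_lt n
      rw [h] at this
      exact absurd this (by decide)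
    unfold l9
    rw [D3, dg_el]
    congr 2
    rw [hd _ hi, hd _ hn]
    simp

theorem rf_GG (T : Finset GG) : ∃ (Q : Type) (_ : Group Q) (_ : Finite Q) (φ : GG →* Q),
    Set.InjOn φ (T : Set GG) := by
  classical
  -- coordinates
  have h1 : ∀ p : GG × GG, ∃ n : ℕ, p.1 ≠ p.2 → ∃ i j : Fin 6,
      ((p.1 : U) : Matrix (Fin 6) (Fin 6) A) i j n ≠
        ((p.2 : U) : Matrix (Fin 6) (Fin 6) A) i j n := by
    rintro ⟨x, y⟩
    by_cases hxy : x = y
    · exact ⟨0, fun h => absurd hxy h⟩
    · have : ∃ (i j : Fin 6) (n : ℕ), ((x : U) : Matrix (Fin 6) (Fin 6) A) i j n ≠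
          ((y : U) : Matrix (Fin 6) (Fin 6) A) i j n := by
        by_contra hcon
        push Not at hcon
        apply hxy
        apply Subtype.ext
        apply Units.ext
        refine Matrix.ext fun i j => ?_
        funext n
        exact hcon i j n
      obtain ⟨i, j, n, h⟩ := this
      exact ⟨n, fun _ => ⟨i, j, h⟩⟩
  choose nn hnn using h1
  set N : ℕ := (T ×ˢ T).sup nn + 1 with hN
  let ψ : A →+* (∀ n : Fin N, Bn n) :=
    { toFun := fun x n => x n
      map_one' := rfl
      map_mul' := fun _ _ => rfl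
      map_zero' := rfl
      map_add' := fun _ _ => rfl }
  refine ⟨(Matrix (Fin 6) (Fin 6) (∀ n : Fin N, Bn n))ˣ, inferInstance, inferInstance,
    (Units.map ψ.mapMatrix.toMonoidHom).comp GG.subtype, ?_⟩
  intro x hx y hy hxy
  by_contra hne
  obtain ⟨i, j, hij⟩ := hnn (x, y) hne
  have hlt : nn (x, y) < N := by
    have : nn (x, y) ≤ (T ×ˢ T).sup nn :=
      Finset.le_sup (f := nn) (Finset.mem_product.2 ⟨hx, hy⟩)
    omega
  apply hij
  have h2 := congrArg (fun u : (Matrix (Fin 6) (Fin 6) (∀ n : Fin N, Bn n))ˣ =>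
    (u : Matrix (Fin 6) (Fin 6) (∀ n : Fin N, Bn n)) i j ⟨nn (x, y), hlt⟩) hxy
  exact h2

end

end Pool.Agent.N289.SA
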