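import Mathlib

/-!
# The two rings for the residually finite Kazhdan pair

`A` is the product of the matrix rings over a finite field indexed by `ZMod (2n+1)`; `b` is the shift
and `a` the multiplication by two, so `a * b = b * b * a`. The subalgebra generated by `a`, `a⁻¹`, `b`
does not contain `b⁻¹`.
-/

set_option autoImplicit false

namespace Pool.Agent.N289.SA

noncomputable section

instance fact257 : Fact (Nat.Prime 257) := ⟨by norm_num⟩

/-- the finite field -/
abbrev F := ZMod 257

/-- the coordinate rings -/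
abbrev Bn (n : ℕ) := Matrix (ZMod (2 * n + 1)) (ZMod (2 * n + 1)) F

/-- the product -/
abbrev A := ∀ n : ℕ, Bn n

/-- permutation matrices -/
def P {X : Type} [Fintype X] [DecidableEq X] : Equiv.Perm X →* Matrix X X F where
  toFun σ := Matrix.of fun x y => if x = σ y then 1 else 0
  map_one' := by
    ext x y
    rw [Matrix.of_apply, Matrix.one_apply]
    rfl
  map_mul' σ τ := by
    ext x y
    rw [Matrix.mul_apply, Finset.sum_eq_single (τ y)]
    · simp only [Matrix.of_apply, if_true, mul_one]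
      rfl
    · intro z _ hz
      simp only [Matrix.of_apply]
      rw [if_neg hz, mul_zero]
    · intro h
      exact absurd (Finset.mem_univ _) h

theorem P_mulVec {X : Type} [Fintype X] [DecidableEq X] (σ : Equiv.Perm X) (v : X → F) (x : X) :
    (P σ).mulVec v x = v (σ⁻¹ x) := by
  unfold P Matrix.mulVec dotProduct
  simp only [MonoidHom.coe_mk, OneHom.coe_mk, Matrix.of_apply, ite_mul, one_mul, zero_mul]
  rw [Finset.sum_eq_single (σ⁻¹ x)]
  · simp
  · intro y _ hy
    rw [if_neg]
    rintro rfl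
    exact hy (by simp)
  · intro h
    exact absurd (Finset.mem_univ _) h

/-- the shift -/
def sh (n : ℕ) : Equiv.Perm (ZMod (2 * n + 1)) := Equiv.addLeft 1

theorem two_mul_inv (n : ℕ) : (2 : ZMod (2 * n + 1)) * ((n : ZMod (2 * n + 1)) + 1) = 1 := by
  have h : ((2 * n + 1 : ℕ) : ZMod (2 * n + 1)) = 0 := ZMod.natCast_self _
  push_cast at h
  linear_combination h

/-- doubling -/
def db (n : ℕ) : Equiv.Perm (ZMod (2 * n + 1)) where
  toFun x := 2 * x
  invFun x := ((n : ZMod (2 * n + 1)) + 1) * x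
  left_inv x := by
    linear_combination x * two_mul_inv n
  right_inv x := by
    linear_combination x * two_mul_inv n

/-- the element `a` -/
def a : A := fun n => P (db n)

/-- the inverse of `a` -/
def ai : A := fun n => P (db n)⁻¹

/-- the element `b` -/
def b : A := fun n => P (sh n)

/-- the inverse of `b` -/
def bi : A := fun n => P (sh n)⁻¹

theorem a_ai : a * ai = 1 := by
  funext n
  show P (db n) * P (db n)⁻¹ = 1
  rw [← map_mul, mul_inv_cancel, map_one]

theorem ai_a : ai * a = 1 := by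
  funext n
  show P (db n)⁻¹ * P (db n) = 1
  rw [← map_mul, inv_mul_cancel, map_one]

theorem b_bi : b * bi = 1 := by
  funext n
  show P (sh n) * P (sh n)⁻¹ = 1
  rw [← map_mul, mul_inv_cancel, map_one]

theorem bi_b : bi * b = 1 := by
  funext n
  show P (sh n)⁻¹ * P (sh n) = 1
  rw [← map_mul, inv_mul_cancel, map_one]

theorem a_b : a * b = b * b * a := by
  funext n
  show P (db n) * P (sh n) = P (sh n) * P (sh n) * P (db n)
  rw [← map_mul, ← map_mul, ← map_mul]
  congr 1
  ext x
  show 2 * (1 + x) = 1 + (1 + 2 * x)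
  ring

/-- The subalgebra generated by `a`, its inverse and `b`. -/
def R : Subalgebra F A := Algebra.adjoin F {a, ai, b}

theorem a_mem : a ∈ R := Algebra.subset_adjoin (by simp)
theorem ai_mem : ai ∈ R := Algebra.subset_adjoin (by simp)
theorem b_mem : b ∈ R := Algebra.subset_adjoin (by simp)

/-- positivity of a vector: it is supported on the numbers `j / 2 ^ I` with `0 ≤ j ≤ J` -/
def Pos (v : ∀ n : ℕ, ZMod (2 * n + 1) → F) : Prop :=
  ∃ I J : ℕ, ∀ n x, v n x ≠ 0 → ∃ j : ℕ, j ≤ J ∧ (2 ^ I * x : ZMod (2 * n + 1)) = j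

theorem pos_mul (r : A) (hr : r ∈ R) : ∀ v, Pos v → Pos (fun n => (r n).mulVec (v n)) := by
  induction hr using Algebra.adjoin_induction with
  | mem x hx =>
    rintro v ⟨I, J, hv⟩
    simp only [Set.mem_insert_iff, Set.mem_singleton_iff] at hx
    rcases hx with rfl | rfl | rfl
    · refine ⟨I, 2 * J, fun n x hx => ?_⟩
      change (P (db n)).mulVec (v n) x ≠ 0 at hx
      rw [P_mulVec] at hx
      obtain ⟨j, hj, h⟩ := hv n _ hx
      refine ⟨2 * j, by omega, ?_⟩
      have h2 : x = 2 * ((db n)⁻¹ x) := ((db n).apply_symm_apply x).symm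
      rw [h2]
      push_cast
      linear_combination 2 * h
    · refine ⟨I + 1, J, fun n x hx => ?_⟩
      change (P (db n)⁻¹).mulVec (v n) x ≠ 0 at hx
      rw [P_mulVec, inv_inv] at hx
      obtain ⟨j, hj, h⟩ := hv n _ hx
      refine ⟨j, hj, ?_⟩
      change 2 ^ I * (2 * x) = _ at h
      rw [← h]
      ring
    · refine ⟨I, J + 2 ^ I, fun n x hx => ?_⟩
      change (P (sh n)).mulVec (v n) x ≠ 0 at hx
      rw [P_mulVec] at hx
      obtain ⟨j, hj, h⟩ := hv n _ hx
      refine ⟨j + 2 ^ I, by omega, ?_⟩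
      have h2 : x = 1 + ((sh n)⁻¹ x) := ((sh n).apply_symm_apply x).symm
      rw [h2]
      push_cast
      linear_combination h
  | algebraMap c =>
    rintro v ⟨I, J, hv⟩
    refine ⟨I, J, fun n x hx => hv n x fun h0 => hx ?_⟩
    have h1 : (algebraMap F A c) n = c • (1 : Bn n) := by
      rw [Algebra.algebraMap_eq_smul_one]
      rfl
    show ((algebraMap F A c) n).mulVec (v n) x = 0
    rw [h1, Matrix.smul_mulVec, Matrix.one_mulVec, Pi.smul_apply, h0, smul_zero]
  | add r s _ _ h1 h2 =>
    intro v hv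
    obtain ⟨I, J, h1⟩ := h1 v hv
    obtain ⟨I', J', h2⟩ := h2 v hv
    refine ⟨I + I', J * 2 ^ I' + J' * 2 ^ I, fun n x hx => ?_⟩
    change ((r n + s n).mulVec (v n)) x ≠ 0 at hx
    rw [Matrix.add_mulVec, Pi.add_apply] at hx
    by_cases hr : (r n).mulVec (v n) x = 0
    · have hs : (s n).mulVec (v n) x ≠ 0 := by
        intro h
        rw [hr, h, add_zero] at hx
        exact hx rfl
      obtain ⟨j, hj, h⟩ := h2 n x hs
      refine ⟨j * 2 ^ I, ?_, ?_⟩
      · calc j * 2 ^ I ≤ J' * 2 ^ I := Nat.mul_le_mul_right _ hj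
          _ ≤ _ := Nat.le_add_left _ _
      · push_cast
        rw [pow_add]
        linear_combination 2 ^ I * h
    · obtain ⟨j, hj, h⟩ := h1 n x hr
      refine ⟨j * 2 ^ I', ?_, ?_⟩
      · calc j * 2 ^ I' ≤ J * 2 ^ I' := Nat.mul_le_mul_right _ hj
          _ ≤ _ := Nat.le_add_right _ _
      · push_cast
        rw [pow_add]
        linear_combination 2 ^ I' * h
  | mul r s _ _ h1 h2 =>
    intro v hv
    have h3 := h1 _ (h2 v hv)
    convert h3 using 1
    funext n
    show (r n * s n).mulVec (v n) = _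
    rw [Matrix.mulVec_mulVec]

theorem bi_not_mem : bi ∉ R := by
  intro h
  obtain ⟨I, J, hv⟩ := pos_mul bi h (fun n => Pi.single 0 1) ⟨0, 0, fun n x hx => ⟨0, le_rfl, by
    by_contra hne
    apply hx
    show (Pi.single 0 1 : ZMod (2 * n + 1) → F) x = 0
    rw [Pi.single_apply, if_neg]
    rintro rfl
    simp at hne⟩⟩
  obtain ⟨j, hj, h2⟩ := hv (2 ^ I + J) (-1) (by
    show (P (sh (2 ^ I + J))⁻¹).mulVec _ (-1) ≠ 0
    rw [P_mulVec, inv_inv]
    have : sh (2 ^ I + J) (-1) = 0 := by
      show (1 : ZMod (2 * (2 ^ I + J) + 1)) + -1 = 0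
      ring
    rw [this]
    simp)
  have h3 : ((2 ^ I + j : ℕ) : ZMod (2 * (2 ^ I + J) + 1)) = 0 := by
    push_cast
    linear_combination -h2
  rw [ZMod.natCast_eq_zero_iff] at h3
  have h4 : 0 < 2 ^ I := by positivity
  have h5 := Nat.le_of_dvd (by omega) h3
  omega

end

end Pool.Agent.N289.SA
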